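import Pool.Agent.H29.SL.Targets

set_option autoImplicit false

namespace Pool.Agent.H89.SL.LD

open Pool.Agent.H29.SL

/-- from `p ^ m * p ^ 2 ≤ (u p) ^ 2` -/
theorem sq_bound {p u m : ℕ} (hp : 7 ≤ p) (h : p ^ (m + 2) ≤ (u * p) ^ 2) : p ^ m ≤ u ^ 2 := by
  have h2 : p ^ m * p ^ 2 ≤ u ^ 2 * p ^ 2 := by
    rw [← pow_add, ← mul_pow]; exact h
  exact Nat.le_of_mul_le_mul_right h2 (by positivity)

theorem fin_bound {p u m c : ℕ} (hp : 7 ≤ p) (h : p ^ m ≤ u ^ 2) (hc : 3 * c ≤ 5 * m) :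
    p ^ (3 * c) ≤ u ^ 10 := by
  calc p ^ (3 * c) ≤ p ^ (5 * m) := Nat.pow_le_pow_right (by omega) hc
    _ = (p ^ m) ^ 5 := by rw [← pow_mul, mul_comm]
    _ ≤ (u ^ 2) ^ 5 := Nat.pow_le_pow_left h 5
    _ = u ^ 10 := by rw [← pow_mul]

/-- the main step, for a general value `F` -/
theorem main {p c u X F : ℕ} (hp : 7 ≤ p) (hc : 4 ≤ c) (hu : 1 ≤ u) (hX : X = (p - 1) * u)
    (hF0 : 0 < F) (hF : F ≤ (X + 1) ^ 2) (hF1 : F ≡ 1 [MOD (p - 1)])
    (hsq : ∀ y : ℕ, F ≠ y ^ 2) (hd : p ^ c ∣ F) : p ^ (3 * c) ≤ u ^ 10 := by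
  have hX1 : X + 1 ≤ u * p := by
    obtain ⟨q, rfl⟩ : ∃ q, p = q + 1 := ⟨p - 1, by omega⟩
    rw [hX]
    simp only [Nat.add_sub_cancel]
    nlinarith
  have hFu : F ≤ (u * p) ^ 2 := hF.trans (Nat.pow_le_pow_left hX1 2)
  rcases Nat.lt_or_ge 4 c with h5 | h4
  · obtain ⟨m, rfl⟩ : ∃ m, c = m + 2 := ⟨c - 2, by omega⟩
    exact fin_bound hp (sq_bound hp ((Nat.le_of_dvd hF0 hd).trans hFu)) (by omega)
  · obtain rfl : c = 4 := by omega
    obtain ⟨w, hw⟩ := hd
    have hp1 : p ≡ 1 [MOD (p - 1)] := by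
      have : p = 1 + (p - 1) := by omega
      conv_lhs => rw [this]
      simp [Nat.ModEq]
    have hw1 : w ≡ 1 [MOD (p - 1)] := by
      have h1 : p ^ 4 * w ≡ 1 ^ 4 * w [MOD (p - 1)] := (hp1.pow 4).mul_right w
      rw [← hw] at h1
      have h2 := h1.symm.trans hF1
      simpa using h2
    have hwp : w = 1 ∨ p ≤ w := by
      have hw0 : w ≠ 0 := by
        rintro rfl
        simp at hw
        omega
      by_contra hcon
      push Not at hcon
      obtain ⟨hne, hlt⟩ := hcon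
      rcases Nat.lt_or_ge w (p - 1) with h | h
      · have := Nat.ModEq.eq_of_lt_of_lt hw1 h (by omega)
        exact hne this
      · have hwe : w = p - 1 := by omega
        rw [hwe] at hw1
        have h3 : (p - 1) % (p - 1) = 1 % (p - 1) := hw1
        rw [Nat.mod_self, Nat.mod_eq_of_lt (by omega)] at h3
        omega
    rcases hwp with rfl | hwp
    · exact absurd (by rw [hw]; ring) (hsq (p ^ 2))
    · have h5 : p ^ (3 + 2) ≤ (u * p) ^ 2 := by
        refine le_trans ?_ hFu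
        rw [hw]
        calc p ^ (3 + 2) = p ^ 4 * p := by ring
          _ ≤ p ^ 4 * w := Nat.mul_le_mul_left _ hwp
      exact fin_bound hp (sq_bound hp h5) (by omega)

theorem pf_LD : T_LD := by
  intro p c u X hpp hp hc hX hd
  have hu : 1 ≤ u := by
    rcases Nat.eq_zero_or_pos u with rfl | h
    · exfalso
      simp only [Nat.mul_zero] at hX
      subst hX
      have h1 : p ^ c ∣ 1 := by rcases hd with h | h <;> simpa using h
      have h2 : p ^ c = 1 := Nat.dvd_one.1 h1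
      have h3 : 1 < p ^ c := Nat.one_lt_pow (by omega) (by omega)
      omega
    · exact h
  have hX6 : 6 ≤ X := by
    rw [hX]
    calc 6 ≤ (p - 1) * 1 := by omega
      _ ≤ (p - 1) * u := Nat.mul_le_mul_left _ hu
  have hX0 : X ≡ 0 [MOD (p - 1)] := by
    rw [hX]
    exact (Nat.modEq_zero_iff_dvd).2 (dvd_mul_right _ _)
  rcases hd with hd | hd
  · refine main hp hc hu hX (by positivity) (by nlinarith) ?_ ?_ hd
    · have := ((hX0.pow 2).add hX0).add_right 1
      simpa using this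
    · intro y hy
      rcases Nat.lt_or_ge X y with h | h
      · nlinarith
      · nlinarith
  · have hle : X ≤ X ^ 2 + 1 := by nlinarith
    have hsub : X ^ 2 + 1 - X + X = X ^ 2 + 1 := Nat.sub_add_cancel hle
    refine main hp hc hu hX (F := X ^ 2 + 1 - X) (by have : X < X ^ 2 + 1 := by nlinarith
                                                     omega) ?_ ?_ ?_ hd
    · have : (X + 1) ^ 2 = X ^ 2 + 2 * X + 1 := by ring
      omega
    · have h1 : X ^ 2 + 1 ≡ 0 ^ 2 + 1 [MOD (p - 1)] := (hX0.pow 2).add_right 1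
      rw [← hsub] at h1
      have h2 : X ^ 2 + 1 - X + X ≡ X ^ 2 + 1 - X + 0 [MOD (p - 1)] := hX0.add_left _
      have h3 := h2.symm.trans h1
      simpa using h3
    · intro y hy
      have hy2 : y ^ 2 + X = X ^ 2 + 1 := by rw [← hy]; exact hsub
      rcases Nat.lt_or_ge y X with h | h
      · have h1 : y ^ 2 ≤ (X - 1) ^ 2 := Nat.pow_le_pow_left (by omega) 2
        obtain ⟨Z, rfl⟩ : ∃ Z, X = Z + 1 := ⟨X - 1, by omega⟩
        simp only [Nat.add_sub_cancel] at h1
        nlinarith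
      · nlinarith

end Pool.Agent.H89.SL.LD
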